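import Pool.Agent.helper21.BEY.SpecB

/-!
# Row `bey:NUB` (MP_4467b5_nt)

The numerical inequalities of the first class.
-/

set_option autoImplicit false

open Complex MeasureTheory

namespace Pool.Agent.BEY

open Pool.Agent.helper84.DM Pool.Agent.helper78.ED Pool.Agent.DH Pool.Agent.LDH

theorem NUB_real (s₀ ε δ : ℝ) (hs : 3 / 4 < s₀) (hs1 : s₀ ≤ 1) (hε : 0 < ε) (hδ : 0 < δ) (hδε : δ ≤ ε / 8)
    (hδη : δ ≤ (s₀ - 3 / 4) / 4) : ∃ κ ε' : ℝ, 0 < κ ∧ κ ≤ 1 ∧ 0 < ε' ∧ ∀ C₁ C₂ : ℝ, 0 < C₁ → 0 < C₂ →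
  ∃ C T₀ : ℝ, 0 < C ∧ ∀ T σ M G V : ℝ, T₀ ≤ T → s₀ ≤ σ → σ ≤ 1 →
  T ^ (1 / (2 * σ)) ≤ M → M ≤ T ^ (3 / (4 * σ) + 4 * δ) → 0 ≤ G → G ≤ C₂ * (M * T ^ (16 * κ / δ)) → 0 < V →
  M ^ (2 * σ) * T ^ (-(16 * κ / δ)) ≤ C₂ * V ^ 2 →
    M ≤ T ∧ C₁ * T ^ ε' * M ^ (1 / 2 : ℝ) * G ≤ V ^ 2 ∧
    C₁ * T ^ ε' * (M * G / V ^ 2 + T ^ (1 / 2 : ℝ) * M * G ^ 2 / V ^ 4) ≤
      C * T ^ ε * T ^ (3 / (2 * σ) * (1 - σ)) := by
  obtain ⟨η, hη⟩ : ∃ η, η = s₀ - 3 / 4 := ⟨_, rfl⟩
  have hη0 : 0 < η := by linarith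
  have hη1 : η ≤ 1 / 4 := by linarith
  rw [← hη] at hδη
  obtain ⟨μ, hμ⟩ : ∃ μ, μ = min ε η := ⟨_, rfl⟩
  have hμ0 : 0 < μ := by rw [hμ]; exact lt_min hε hη0
  have hμε : μ ≤ ε := by rw [hμ]; exact min_le_left _ _
  have hμη : μ ≤ η := by rw [hμ]; exact min_le_right _ _
  refine ⟨δ * μ / 1000, μ / 64, by positivity, ?_, by positivity, ?_⟩
  · have : δ * μ ≤ 1 * 1 := mul_le_mul (by linarith) (by linarith) hμ0.le zero_le_one
    linarith
  have hx : 16 * (δ * μ / 1000) / δ = 16 * μ / 1000 := by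
    field_simp
  rw [hx]
  obtain ⟨x, hxd⟩ : ∃ x, x = 16 * μ / 1000 := ⟨_, rfl⟩
  rw [← hxd]
  obtain ⟨e', he'⟩ : ∃ e', e' = μ / 64 := ⟨_, rfl⟩
  rw [← he']
  have hx0 : 0 < x := by rw [hxd]; positivity
  have he0 : 0 < e' := by rw [he']; positivity
  intro C₁ C₂ hC₁ hC₂
  refine ⟨C₁ * C₂ ^ 2 + C₁ * C₂ ^ 4, max 1 ((C₁ * C₂ ^ 2) ^ (8 / η)), by positivity, ?_⟩
  intro T σ M G V hT0 hσ hσ1 hHM hMH hG hGC hV hMV
  have hT1 : 1 ≤ T := (le_max_left _ _).trans hT0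
  have hTp : 0 < T := by linarith
  have hσ0 : 0 < σ := by linarith
  have hMp : 0 < M := lt_of_lt_of_le (Real.rpow_pos_of_pos hTp _) hHM
  obtain ⟨t, ht⟩ : ∃ t, t = Real.log T := ⟨_, rfl⟩
  obtain ⟨m, hm⟩ : ∃ m, m = Real.log M := ⟨_, rfl⟩
  have ht0 : 0 ≤ t := by rw [ht]; exact Real.log_nonneg hT1
  have eT : ∀ y : ℝ, T ^ y = Real.exp (t * y) := fun y => by rw [ht, Real.rpow_def_of_pos hTp]
  have eM : ∀ y : ℝ, M ^ y = Real.exp (m * y) := fun y => by rw [hm, Real.rpow_def_of_pos hMp]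
  have eM1 : M = Real.exp m := by rw [hm, Real.exp_log hMp]
  have eT1 : T = Real.exp t := by rw [ht, Real.exp_log hTp]
  -- the exponent `a = 1 / (2 σ)`
  obtain ⟨a, ha⟩ : ∃ a, a = 1 / (2 * σ) := ⟨_, rfl⟩
  have hasig : a * σ = 1 / 2 := by rw [ha]; field_simp
  have e34 : 3 / (4 * σ) = 3 / 2 * a := by rw [ha]; field_simp; ring
  have e32 : 3 / (2 * σ) * (1 - σ) = 3 * a - 3 / 2 := by
    have : 3 / (2 * σ) = 3 * a := by rw [ha]; field_simp
    rw [this]
    have e : 3 * a * (1 - σ) = 3 * a - 3 * (a * σ) := by ring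
    rw [e, hasig]
    ring
  rw [← ha] at hHM
  rw [e34] at hMH
  rw [e32]
  have ha0 : 1 / 2 ≤ a := by nlinarith
  have hap : 0 < a := by linarith
  have haη : 3 / 2 * a ≤ 1 - η := by
    have hση : 3 / 4 + η ≤ σ := by linarith
    have h1 : a * (3 / 4 + η) ≤ 1 / 2 := by
      rw [← hasig]; exact mul_le_mul_of_nonneg_left hση hap.le
    have h2 : 1 ≤ (1 - η) * (1 + 4 * η / 3) := by nlinarith
    have h3 : (3 / 2 * a) * (1 + 4 * η / 3) ≤ 1 := by nlinarith
    have h4 : 0 < 1 + 4 * η / 3 := by linarith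
    exact le_of_mul_le_mul_right (h3.trans h2) h4
  have h3 : t * a ≤ m := by
    have := hHM
    rw [eT, eM1, Real.exp_le_exp] at this
    exact this
  have h4 : m ≤ t * (3 / 2 * a + 4 * δ) := by
    have := hMH
    rw [eT, eM1, Real.exp_le_exp] at this
    exact this
  have hm2 : t / 2 ≤ m := by
    have : t * (1 / 2) ≤ t * a := mul_le_mul_of_nonneg_left ha0 ht0
    linarith
  have hm0 : 0 ≤ m := by linarith
  have hMV' : Real.exp (m * (2 * σ) - t * x) ≤ C₂ * V ^ 2 := by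
    have := hMV
    rw [eM, eT, ← Real.exp_add] at this
    have e : m * (2 * σ) + t * -x = m * (2 * σ) - t * x := by ring
    rwa [e] at this
  have hG' : G ≤ C₂ * Real.exp (m + t * x) := by
    have := hGC
    rw [eT, eM1, ← Real.exp_add] at this
    exact this
  have hV2 : 0 < V ^ 2 := by positivity
  -- products of the small exponents
  have p3 : t * e' = t * μ / 64 := by rw [he']; ring
  have p4 : t * x = 16 * (t * μ) / 1000 := by rw [hxd]; ring
  have p5 : 0 ≤ t * μ := mul_nonneg ht0 hμ0.le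
  have p6 : t * μ ≤ t * ε := mul_le_mul_of_nonneg_left hμε ht0
  have p7 : t * μ ≤ t * η := mul_le_mul_of_nonneg_left hμη ht0
  have p8 : t * δ ≤ t * ε / 8 := by
    have := mul_le_mul_of_nonneg_left hδε ht0
    linarith
  have p9 : t * δ ≤ t * η / 4 := by
    have := mul_le_mul_of_nonneg_left hδη ht0
    linarith
  have hσ' : 2 * η ≤ 2 * σ - 3 / 2 := by linarith
  refine ⟨?_, ?_, ?_⟩
  · -- `M ≤ T`
    rw [eM1, eT1, Real.exp_le_exp]
    have q1 : t * (3 / 2 * a) ≤ t * (1 - η) := mul_le_mul_of_nonneg_left haη ht0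
    nlinarith
  · -- first claim
    have k1 : C₁ * C₂ ^ 2 ≤ Real.exp (t * η / 8) := by
      have hb : (C₁ * C₂ ^ 2) ^ (8 / η) ≤ T := (le_max_right _ _).trans hT0
      have hb2 : ((C₁ * C₂ ^ 2) ^ (8 / η)) ^ (η / 8) ≤ T ^ (η / 8) :=
        Real.rpow_le_rpow (by positivity) hb (by positivity)
      rw [← Real.rpow_mul (by positivity)] at hb2
      have e : 8 / η * (η / 8) = 1 := by field_simp
      rw [e, Real.rpow_one, eT] at hb2
      have e2 : t * (η / 8) = t * η / 8 := by ring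
      rwa [e2] at hb2
    have k2 : t * η / 8 + (t * e' + m * (1 / 2) + (m + t * x)) ≤ m * (2 * σ) - t * x := by
      have q2 : (t / 2) * (2 * η) ≤ m * (2 * σ - 3 / 2) :=
        mul_le_mul hm2 hσ' (by positivity) hm0
      nlinarith
    have k3 : C₁ * T ^ e' * M ^ (1 / 2 : ℝ) * G ≤
        C₁ * Real.exp (t * e') * Real.exp (m * (1 / 2)) * (C₂ * Real.exp (m + t * x)) := by
      rw [eT, eM]
      exact mul_le_mul_of_nonneg_left hG' (by positivity)
    have k4 : C₂ * (C₁ * Real.exp (t * e') * Real.exp (m * (1 / 2)) * (C₂ * Real.exp (m + t * x))) ≤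
        C₂ * V ^ 2 := by
      calc C₂ * (C₁ * Real.exp (t * e') * Real.exp (m * (1 / 2)) * (C₂ * Real.exp (m + t * x)))
          = C₁ * C₂ ^ 2 * Real.exp (t * e' + m * (1 / 2) + (m + t * x)) := by
            rw [Real.exp_add (t * e' + m * (1 / 2)) (m + t * x),
              Real.exp_add (t * e') (m * (1 / 2))]
            ring
        _ ≤ Real.exp (t * η / 8) * Real.exp (t * e' + m * (1 / 2) + (m + t * x)) :=
            mul_le_mul_of_nonneg_right k1 (Real.exp_pos _).le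
        _ = Real.exp (t * η / 8 + (t * e' + m * (1 / 2) + (m + t * x))) := by
            rw [← Real.exp_add]
        _ ≤ Real.exp (m * (2 * σ) - t * x) := Real.exp_le_exp.2 k2
        _ ≤ C₂ * V ^ 2 := hMV'
    exact k3.trans (le_of_mul_le_mul_left k4 hC₂)
  · -- second claim
    obtain ⟨R, hR⟩ : ∃ R, R = G / V ^ 2 := ⟨_, rfl⟩
    have hR0 : 0 ≤ R := by rw [hR]; positivity
    have hR1 : R ≤ C₂ ^ 2 * Real.exp ((1 - 2 * σ) * m + 2 * (t * x)) := by
      rw [hR, div_le_iff₀ hV2]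
      calc G ≤ C₂ * Real.exp (m + t * x) := hG'
        _ = C₂ * Real.exp ((1 - 2 * σ) * m + 2 * (t * x)) * Real.exp (m * (2 * σ) - t * x) := by
            rw [mul_assoc, ← Real.exp_add]
            congr 2
            ring
        _ ≤ C₂ * Real.exp ((1 - 2 * σ) * m + 2 * (t * x)) * (C₂ * V ^ 2) :=
            mul_le_mul_of_nonneg_left hMV' (by positivity)
        _ = C₂ ^ 2 * Real.exp ((1 - 2 * σ) * m + 2 * (t * x)) * V ^ 2 := by ring
    have e1 : M * G / V ^ 2 + T ^ (1 / 2 : ℝ) * M * G ^ 2 / V ^ 4 =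
        M * R + T ^ (1 / 2 : ℝ) * M * R ^ 2 := by
      rw [hR]
      field_simp
    rw [e1, eT, eT, eT, eT]
    have k1 : Real.exp (t * e') * (M * R) ≤
        C₂ ^ 2 * (Real.exp (t * ε) * Real.exp (t * (3 * a - 3 / 2))) := by
      have k2 : t * e' + m + ((1 - 2 * σ) * m + 2 * (t * x)) ≤ t * ε + t * (3 * a - 3 / 2) := by
        have q1 : m * (2 * (1 - σ)) ≤ t * (3 / 2 * a + 4 * δ) * (2 * (1 - σ)) :=
          mul_le_mul_of_nonneg_right h4 (by linarith)
        have q2 : t * (4 * δ) * (2 * (1 - σ)) ≤ t * (4 * δ) * (1 / 2) :=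
          mul_le_mul_of_nonneg_left (by linarith) (by positivity)
        have q3 : t * (3 / 2 * a + 4 * δ) * (2 * (1 - σ)) =
            t * (3 * a) - 3 * t * (a * σ) + t * (4 * δ) * (2 * (1 - σ)) := by ring
        rw [q3, hasig] at q1
        nlinarith
      calc Real.exp (t * e') * (M * R)
          ≤ Real.exp (t * e') * (M * (C₂ ^ 2 * Real.exp ((1 - 2 * σ) * m + 2 * (t * x)))) :=
            mul_le_mul_of_nonneg_left (mul_le_mul_of_nonneg_left hR1 hMp.le) (Real.exp_pos _).le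
        _ = C₂ ^ 2 * Real.exp (t * e' + m + ((1 - 2 * σ) * m + 2 * (t * x))) := by
            rw [Real.exp_add (t * e' + m) ((1 - 2 * σ) * m + 2 * (t * x)),
              Real.exp_add (t * e') m, ← eM1]
            ring
        _ ≤ C₂ ^ 2 * Real.exp (t * ε + t * (3 * a - 3 / 2)) :=
            mul_le_mul_of_nonneg_left (Real.exp_le_exp.2 k2) (by positivity)
        _ = C₂ ^ 2 * (Real.exp (t * ε) * Real.exp (t * (3 * a - 3 / 2))) := by rw [Real.exp_add]
    have k3 : Real.exp (t * e') * (Real.exp (t * (1 / 2)) * M * R ^ 2) ≤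
        C₂ ^ 4 * (Real.exp (t * ε) * Real.exp (t * (3 * a - 3 / 2))) := by
      have k2 : t * e' + t * (1 / 2) + m + 2 * ((1 - 2 * σ) * m + 2 * (t * x)) ≤
          t * ε + t * (3 * a - 3 / 2) := by
        have q1 : (4 * σ - 3) * (t * a) ≤ (4 * σ - 3) * m :=
          mul_le_mul_of_nonneg_left h3 (by linarith)
        have q2 : (4 * σ - 3) * (t * a) = 4 * t * (a * σ) - 3 * (t * a) := by ring
        rw [q2, hasig] at q1
        nlinarith
      have k4 : R ^ 2 ≤ (C₂ ^ 2 * Real.exp ((1 - 2 * σ) * m + 2 * (t * x))) ^ 2 :=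
        pow_le_pow_left₀ hR0 hR1 2
      calc Real.exp (t * e') * (Real.exp (t * (1 / 2)) * M * R ^ 2)
          ≤ Real.exp (t * e') * (Real.exp (t * (1 / 2)) * M *
              (C₂ ^ 2 * Real.exp ((1 - 2 * σ) * m + 2 * (t * x))) ^ 2) :=
            mul_le_mul_of_nonneg_left (mul_le_mul_of_nonneg_left k4 (by positivity)) (Real.exp_pos _).le
        _ = C₂ ^ 4 * Real.exp (t * e' + t * (1 / 2) + m +
              2 * ((1 - 2 * σ) * m + 2 * (t * x))) := by
            have e2 : Real.exp (2 * ((1 - 2 * σ) * m + 2 * (t * x))) =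
                Real.exp ((1 - 2 * σ) * m + 2 * (t * x)) ^ 2 := by
              rw [← Real.exp_nat_mul]
              norm_num
            rw [Real.exp_add (t * e' + t * (1 / 2) + m) (2 * ((1 - 2 * σ) * m + 2 * (t * x))),
              Real.exp_add (t * e' + t * (1 / 2)) m,
              Real.exp_add (t * e') (t * (1 / 2)), e2, ← eM1]
            ring
        _ ≤ C₂ ^ 4 * Real.exp (t * ε + t * (3 * a - 3 / 2)) :=
            mul_le_mul_of_nonneg_left (Real.exp_le_exp.2 k2) (by positivity)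
        _ = C₂ ^ 4 * (Real.exp (t * ε) * Real.exp (t * (3 * a - 3 / 2))) := by rw [Real.exp_add]
    have k5 := mul_le_mul_of_nonneg_left (add_le_add k1 k3) hC₁.le
    calc C₁ * Real.exp (t * e') * (M * R + Real.exp (t * (1 / 2)) * M * R ^ 2)
        = C₁ * (Real.exp (t * e') * (M * R) +
            Real.exp (t * e') * (Real.exp (t * (1 / 2)) * M * R ^ 2)) := by ring
      _ ≤ _ := k5
      _ = (C₁ * C₂ ^ 2 + C₁ * C₂ ^ 4) * Real.exp (t * ε) * Real.exp (t * (3 * a - 3 / 2)) := by ring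

theorem NUB : NUB_stmt := by
  intro s₀ ε δ h1 h2 h3 h4 h5 h6 h7
  exact NUB_real s₀ ε δ h1 h2 h3 h4 h5 h6

end Pool.Agent.BEY
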